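import Mathlib
import Pool.Agent.TauStar.Defs
import Pool.Agent.TauStar.Category

/-!
# Tau-star covers without gamma-subcover produce towers of length in `[cov(M), non(M)]`
-/

set_option autoImplicit false

namespace Pool.Agent.TauStar

open Set

/-- There is a tower of length `κ`: a sequence `(T α)` of infinite subsets of `ℕ`, `α < κ`,
decreasing modulo finite sets, without a pseudo-intersection (an infinite set almost contained in
each `T α`). -/
def HasTower (κ : Cardinal.{0}) : Prop :=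
  ∃ T : Ordinal.{0} → Set ℕ, (∀ α < κ.ord, (T α).Infinite) ∧
    (∀ α < κ.ord, ∀ β < α, (T α \ T β).Finite) ∧
    ¬ ∃ P : Set ℕ, P.Infinite ∧ ∀ α < κ.ord, (P \ T α).Finite

section tower

variable {U : ℕ → Set (ℕ → Bool)} {B : (ℕ → Bool) → Set ℕ}

/-- Transfinite recursion along a well order, all of whose proper initial segments have a lower
bound. -/
lemma exists_rec {ι : Type} [LinearOrder ι] [WellFoundedLT ι] (e : ι → (ℕ → Bool))
    (hlow : ∀ (s : ι) (g : ι → (ℕ → Bool)), ∃ x, (∀ t < s, (B x \ B (g t)).Finite) ∧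
      (B x \ B (e s)).Finite) :
    ∃ f : ι → (ℕ → Bool), ∀ s, (∀ t < s, (B (f s) \ B (f t)).Finite) ∧
      (B (f s) \ B (e s)).Finite := by
  classical
  let F : (s : ι) → ((t : ι) → t < s → (ℕ → Bool)) → (ℕ → Bool) := fun s ih =>
    Classical.choose (hlow s fun t => if h : t < s then ih t h else fun _ => true)
  have hr : WellFounded ((· < ·) : ι → ι → Prop) := wellFounded_lt
  refine ⟨hr.fix F, fun s => ?_⟩
  have h1 : hr.fix F s = F s fun t _ => hr.fix F t := hr.fix_eq F s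
  have h2 := Classical.choose_spec
    (hlow s fun t => if h : t < s then hr.fix F t else fun _ => true)
  have h3 : hr.fix F s = Classical.choose
      (hlow s fun t => if h : t < s then hr.fix F t else fun _ => true) := h1
  rw [← h3] at h2
  refine ⟨fun t ht => ?_, h2.2⟩
  have h4 := h2.1 t ht
  rw [dif_pos ht] at h4
  exact h4

lemma tower_aux {ι : Type} [LinearOrder ι] [WellFoundedLT ι] (κ : Cardinal.{0})
    (hinf : Cardinal.aleph0 ≤ κ) (hι : κ.ord = Ordinal.type (fun a b : ι => a < b))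
    (e : ι → (ℕ → Bool)) (hco : ∀ x, ∃ i, (B (e i) \ B x).Finite)
    (hsmall : ∀ A : Set (ℕ → Bool), Cardinal.mk A < κ → ∃ x, ∀ a ∈ A, (B x \ B a).Finite)
    (hmin : ∀ A : Set (ℕ → Bool), (∀ x, ∃ a ∈ A, (B a \ B x).Finite) → κ ≤ Cardinal.mk A) :
    κ.IsRegular ∧ ∃ T : Ordinal.{0} → (ℕ → Bool),
      (∀ α < κ.ord, ∀ β < α, (B (T α) \ B (T β)).Finite) ∧
      ∀ x, ∃ α < κ.ord, (B (T α) \ B x).Finite := by
  classical
  have hlow : ∀ (s : ι) (g : ι → (ℕ → Bool)), ∃ x, (∀ t < s, (B x \ B (g t)).Finite) ∧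
      (B x \ B (e s)).Finite := by
    intro s g
    have h1 : Cardinal.mk {t | t < s} < κ := by
      have h0 := Ordinal.typein_lt_type (fun a b : ι => a < b) s
      rw [← hι, Cardinal.lt_ord] at h0
      exact h0
    have h2 : Cardinal.mk (insert (e s) (g '' {t | t < s}) : Set (ℕ → Bool)) < κ := by
      refine lt_of_le_of_lt Cardinal.mk_insert_le ?_
      refine Cardinal.add_lt_of_lt hinf ?_ (lt_of_lt_of_le Cardinal.one_lt_aleph0 hinf)
      exact lt_of_le_of_lt Cardinal.mk_image_le h1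
    obtain ⟨x, hx⟩ := hsmall _ h2
    exact ⟨x, fun t ht => hx _ (Or.inr ⟨t, ht, rfl⟩), hx _ (Or.inl rfl)⟩
  obtain ⟨f, hf⟩ := exists_rec e hlow
  refine ⟨⟨hinf, ?_⟩, ?_⟩
  · rw [hι, Ordinal.cof_type, Order.le_cof_iff]
    intro A hA
    have h5 : κ ≤ Cardinal.mk (f '' A) := by
      refine hmin _ fun x => ?_
      obtain ⟨s, hs⟩ := hco x
      obtain ⟨b, hb, hb'⟩ := hA s
      refine ⟨f b, ⟨b, hb, rfl⟩, ?_⟩
      rcases hb'.eq_or_lt with h | h
      · rw [← h]
        exact diff_finite_trans (hf s).2 hs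
      · exact diff_finite_trans (diff_finite_trans ((hf b).1 _ h) (hf s).2) hs
    exact h5.trans Cardinal.mk_image_le
  · refine ⟨fun α => if h : α < Ordinal.type (fun a b : ι => a < b) then
      f (Ordinal.enum (fun a b : ι => a < b) ⟨α, h⟩) else fun _ => true, ?_, ?_⟩
    · intro α hα β hβ
      rw [hι] at hα
      simp only [dif_pos hα, dif_pos (hβ.trans hα)]
      refine (hf _).1 _ ?_
      exact (Ordinal.enum_lt_enum (r := fun a b : ι => a < b)
        (o₁ := ⟨β, hβ.trans hα⟩) (o₂ := ⟨α, hα⟩)).2 hβ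
    · intro x
      obtain ⟨s, hs⟩ := hco x
      refine ⟨Ordinal.typein (fun a b : ι => a < b) s, ?_, ?_⟩
      · rw [hι]
        exact Ordinal.typein_lt_type _ _
      · simp only [dif_pos (Ordinal.typein_lt_type (fun a b : ι => a < b) s),
          Ordinal.enum_typein]
        exact diff_finite_trans (hf s).2 hs

/-- A linear refinement of a cover without gamma-subcover has regular coinitiality, which is the
length of a tower. -/
theorem tower_of_not_gamma (hB : IsLinearRefinement U B) (hno : ¬ HasGammaSubcover U) :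
    (coinitiality B).IsRegular ∧ HasTower (coinitiality B) := by
  have hne : {κ | ∃ S : Set (ℕ → Bool), (∀ x, ∃ s ∈ S, (B s \ B x).Finite) ∧
      Cardinal.mk S = κ}.Nonempty := ⟨_, Set.univ, fun x => ⟨x, mem_univ x, by simp⟩, rfl⟩
  obtain ⟨S, hS, hSc⟩ := csInf_mem hne
  change Cardinal.mk S = coinitiality B at hSc
  have hinf : Cardinal.aleph0 ≤ coinitiality B := by
    by_contra h4
    refine hno (gamma_of_countable hB S ?_ hS)
    exact (Cardinal.le_aleph0_iff_set_countable).1 (by rw [hSc]; exact (not_le.1 h4).le)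
  have hmin : ∀ A : Set (ℕ → Bool), (∀ x, ∃ a ∈ A, (B a \ B x).Finite) →
      coinitiality B ≤ Cardinal.mk A := fun A hA => csInf_le' ⟨A, hA, rfl⟩
  -- small sets have lower bounds
  have hsmall : ∀ A : Set (ℕ → Bool), Cardinal.mk A < coinitiality B →
      ∃ x, ∀ a ∈ A, (B x \ B a).Finite := by
    intro A hA
    by_contra h1
    push Not at h1
    refine absurd (hmin A fun x => ?_) (not_le.2 hA)
    obtain ⟨a, ha, ha'⟩ := h1 x
    exact ⟨a, ha, (hB.linear x a).resolve_left ha'⟩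
  obtain ⟨ι, hιS⟩ : ∃ ι : Type, Nonempty (ι ≃ S) := ⟨S, ⟨Equiv.refl _⟩⟩
  obtain ⟨φ⟩ := hιS
  obtain ⟨lo, wf, hrt⟩ := Cardinal.exists_ord_eq_type_lt ι
  rw [Cardinal.mk_congr φ, hSc] at hrt
  obtain ⟨h1, T, hT1, hT2⟩ := tower_aux (B := B) (coinitiality B) hinf hrt
    (fun i => (φ i : ℕ → Bool)) (fun x => by
      obtain ⟨s, hs, hs'⟩ := hS x
      exact ⟨φ.symm ⟨s, hs⟩, by simpa using hs'⟩) hsmall hmin
  refine ⟨h1, fun α => B (T α), fun α _ => hB.infinite _, hT1, ?_⟩
  rintro ⟨P, hP, hP'⟩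
  refine hno ⟨P, hP, fun x => ?_⟩
  obtain ⟨α, hα, hα'⟩ := hT2 x
  refine (diff_finite_trans (hP' α hα) hα').subset ?_
  rintro n ⟨hn, hn'⟩
  exact ⟨hn, fun h2 => hn' (hB.subset x h2)⟩

end tower

/-- If no regular cardinal `κ` with `cov(M) ≤ κ ≤ non(M)` is the length of a tower, then the Cantor
space satisfies `(T* choose Gamma)`. -/
theorem gamma_of_no_tower
    (h : ∀ κ : Cardinal.{0}, κ.IsRegular → covM ≤ κ → κ ≤ nonM → ¬ HasTower κ) :
    CantorSatisfiesTauStarGamma := by
  intro U hU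
  by_contra hno
  obtain ⟨B, hB⟩ := hU.refinable
  obtain ⟨h1, h2⟩ := tower_of_not_gamma hB hno
  refine h _ h1 ?_ ?_ h2
  · by_contra h3
    exact hno (gamma_of_coinitiality' U hU.isOpen B hB (Or.inl (not_le.1 h3)))
  · by_contra h3
    exact hno (gamma_of_coinitiality' U hU.isOpen B hB (Or.inr (not_le.1 h3)))

end Pool.Agent.TauStar
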