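import Mathlib

/-!
# Increasing chains of slow slaloms

`addN` is the additivity of the null ideal in the combinatorial form of Bartoszyński: the least size
of a family of functions which is not localised by a single slalom. Fewer than `addN` slow slaloms
have a slow upper bound, and so there are chains of slow slaloms capturing a given sequence of
functions.
-/

set_option autoImplicit false

namespace Pool.Agent.TauStar

open Set Filter

/-- The slalom `S` localises the function `f`: `f n ∈ S n` for all but finitely many `n`. -/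
def Localises (S : ℕ → Finset ℕ) (f : ℕ → ℕ) : Prop := ∀ᶠ n in atTop, f n ∈ S n

/-- The least cardinality of a family of functions which is not localised by a single slalom `S`
with `|S n| ≤ n`; by a theorem of Bartoszyński, this is the additivity of the null ideal. -/
noncomputable def addN : Cardinal.{0} :=
  sInf {κ | ∃ F : Set (ℕ → ℕ), (¬ ∃ S : ℕ → Finset ℕ, (∀ n, (S n).card ≤ n) ∧
    ∀ f ∈ F, Localises S f) ∧ Cardinal.mk F = κ}

lemma exists_slalom {ι : Type} (hι : Cardinal.mk ι < addN) (f : ι → ℕ → ℕ) :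
    ∃ S : ℕ → Finset ℕ, (∀ n, (S n).card ≤ n) ∧ ∀ i, Localises S (f i) := by
  by_contra hno
  have h1 : addN ≤ Cardinal.mk (Set.range f) := by
    refine csInf_le' ⟨Set.range f, ?_, rfl⟩
    rintro ⟨S, hS, hS'⟩
    exact hno ⟨S, hS, fun i => hS' _ ⟨i, rfl⟩⟩
  exact absurd (h1.trans Cardinal.mk_range_le) (not_le.2 hι)

/-- fewer than `addN` functions are dominated by one -/
lemma exists_dominating {ι : Type} (hι : Cardinal.mk ι < addN) (f : ι → ℕ → ℕ) :
    ∃ g : ℕ → ℕ, ∀ i, ∀ᶠ n in atTop, f i n ≤ g n := by
  obtain ⟨S, -, hS⟩ := exists_slalom hι f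
  refine ⟨fun n => (S n).sup id, fun i => ?_⟩
  filter_upwards [hS i] with n hn
  exact Finset.le_sup (f := id) hn

/-- localisation with an arbitrary width `g → ∞` and in an arbitrary countable set -/
lemma exists_slalom_width {ι W : Type} [Encodable W] [Inhabited W] [DecidableEq W]
    (hι : Cardinal.mk ι < addN) (f : ι → ℕ → W) (g : ℕ → ℕ) (hg : Tendsto g atTop atTop) :
    ∃ S : ℕ → Finset W, (∀ n, (S n).card ≤ g n) ∧ ∀ i, ∀ᶠ n in atTop, f i n ∈ S n := by
  have hM : ∀ n, ∃ M, ∀ m, M ≤ m → n < g m := fun n =>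
    eventually_atTop.1 (hg.eventually_gt_atTop n)
  choose M hM using hM
  obtain ⟨S, hS, hS'⟩ := exists_slalom hι
    (fun i n => Encodable.encode ((List.range (M n)).map (f i)))
  refine ⟨fun m => (S (g m)).image fun c => match (Encodable.decode c : Option (List W)) with
    | some l => l.getD m default
    | none => default, fun m => Finset.card_image_le.trans (hS _), fun i => ?_⟩
  filter_upwards [hg.eventually (hS' i)] with m hm
  refine Finset.mem_image.2 ⟨_, hm, ?_⟩
  have h1 : m < M (g m) := by
    by_contra h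
    exact absurd (hM (g m) m (not_lt.1 h)) (lt_irrefl _)
  simp only [Encodable.encodek]
  rw [List.getD_eq_getElem _ _ (by simpa using h1)]
  simp

/-- A slalom is slow if its width is eventually below each root of `m`. -/
def Slow {W : Type} (S : ℕ → Finset W) : Prop := ∀ k : ℕ, ∀ᶠ m in atTop, (S m).card ^ k ≤ m

/-- fewer than `addN` slow slaloms have a slow upper bound -/
lemma exists_slow_bound {ι W : Type} [Encodable W] [DecidableEq W]
    (hι : Cardinal.mk ι < addN) (S : ι → ℕ → Finset W) (hS : ∀ i, Slow (S i)) :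
    ∃ T : ℕ → Finset W, Slow T ∧ ∀ i, ∀ᶠ m in atTop, S i m ⊆ T m := by
  classical
  have hφ : ∀ i k, ∃ M, ∀ m, M ≤ m → (S i m).card ^ k ≤ m := fun i k =>
    eventually_atTop.1 (hS i k)
  choose φ hφ using hφ
  obtain ⟨ψ, hψ⟩ := exists_dominating hι φ
  let h : ℕ → ℕ := fun m => Nat.findGreatest (fun k => ψ k ≤ m) m
  -- `h m → ∞`
  have hh : Tendsto h atTop atTop := by
    refine tendsto_atTop.2 fun k => ?_
    filter_upwards [eventually_ge_atTop (max k (ψ k))] with m hm
    exact Nat.le_findGreatest ((le_max_left _ _).trans hm) ((le_max_right _ _).trans hm)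
  have hhs : ∀ᶠ m in atTop, ψ (h m) ≤ m := by
    filter_upwards [eventually_ge_atTop (ψ 0)] with m hm
    exact Nat.findGreatest_spec (P := fun k => ψ k ≤ m) (Nat.zero_le m) hm
  have hSh : ∀ i, ∀ᶠ m in atTop, (S i m).card ^ (h m) ≤ m := by
    intro i
    filter_upwards [hh.eventually (hψ i), hhs] with m h1 h2
    exact hφ i (h m) m (h1.trans h2)
  let g : ℕ → ℕ := fun m => Nat.findGreatest (fun k => k ^ k ≤ m) m
  have hg : Tendsto g atTop atTop := by
    refine tendsto_atTop.2 fun k => ?_
    filter_upwards [eventually_ge_atTop (max k (k ^ k))] with m hm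
    exact Nat.le_findGreatest ((le_max_left _ _).trans hm) ((le_max_right _ _).trans hm)
  have hgs : ∀ᶠ m in atTop, g m ^ g m ≤ m := by
    filter_upwards [eventually_ge_atTop (0 ^ 0)] with m hm
    exact Nat.findGreatest_spec (P := fun k => k ^ k ≤ m) (Nat.zero_le m) hm
  obtain ⟨Φ, hΦ, hΦ'⟩ := exists_slalom_width hι S g hg
  refine ⟨fun m => ((Φ m).filter fun F => F.card ^ (h m) ≤ m).biUnion id, ?_, ?_⟩
  · intro k
    filter_upwards [hh.eventually_ge_atTop (2 * k), hg.eventually_ge_atTop (2 * k + 1), hgs,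
      eventually_ge_atTop 1] with m h1 h2 h3 h4
    set A := (Φ m).filter fun F => F.card ^ (h m) ≤ m with hA
    set N := A.sup Finset.card with hN
    have h5 : (A.biUnion id).card ≤ g m * N :=
      (Finset.card_biUnion_le_card_mul A id N fun F hF => Finset.le_sup (f := Finset.card) hF).trans
        (Nat.mul_le_mul_right _ ((Finset.card_filter_le _ _).trans (hΦ m)))
    have h6 : N ^ (2 * k) ≤ m := by
      rcases A.eq_empty_or_nonempty with h7 | h7
      · have h8 : N = 0 := by rw [hN, h7]; simp
        rw [h8]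
        exact (pow_le_one₀ (n := 2 * k) (le_refl 0) zero_le_one).trans h4
      · obtain ⟨F, hF, hFN⟩ := Finset.exists_mem_eq_sup A h7 Finset.card
        have h9 : N ^ (h m) ≤ m := by
          rw [hN, hFN]
          exact (Finset.mem_filter.1 hF).2
        rcases Nat.eq_zero_or_pos N with h10 | h10
        · rw [h10]
          exact (pow_le_one₀ (n := 2 * k) (le_refl 0) zero_le_one).trans h4
        · exact (Nat.pow_le_pow_right h10 h1).trans h9
    have h11 : g m ^ (2 * k) ≤ m :=
      (Nat.pow_le_pow_right (by omega) (by omega : 2 * k ≤ g m)).trans h3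
    have h12 : ((g m * N) ^ k) ^ 2 ≤ m ^ 2 := by
      have h13 : ((g m * N) ^ k) ^ 2 = g m ^ (2 * k) * N ^ (2 * k) := by ring
      rw [h13, sq m]
      exact Nat.mul_le_mul h11 h6
    exact (Nat.pow_le_pow_left h5 k).trans ((Nat.pow_le_pow_iff_left two_ne_zero).1 h12)
  · intro i
    filter_upwards [hΦ' i, hSh i] with m h1 h2
    intro w hw
    exact Finset.mem_biUnion.2 ⟨S i m, Finset.mem_filter.2 ⟨h1, h2⟩, hw⟩

/-- transfinite recursion -/
lemma exists_rec' {ι X : Type} [LinearOrder ι] [WellFoundedLT ι] [Inhabited X]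
    (R : X → X → Prop) (Q : ι → X → Prop)
    (hlow : ∀ (s : ι) (g : ι → X), ∃ x, (∀ t < s, R (g t) x) ∧ Q s x) :
    ∃ f : ι → X, ∀ s, (∀ t < s, R (f t) (f s)) ∧ Q s (f s) := by
  classical
  let F : (s : ι) → ((t : ι) → t < s → X) → X := fun s ih =>
    Classical.choose (hlow s fun t => if h : t < s then ih t h else default)
  have hr : WellFounded ((· < ·) : ι → ι → Prop) := wellFounded_lt
  refine ⟨hr.fix F, fun s => ?_⟩
  have h1 : hr.fix F s = F s fun t _ => hr.fix F t := hr.fix_eq F s
  have h2 := Classical.choose_spec (hlow s fun t => if h : t < s then hr.fix F t else default)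
  have h3 : hr.fix F s = Classical.choose
      (hlow s fun t => if h : t < s then hr.fix F t else default) := h1
  rw [← h3] at h2
  refine ⟨fun t ht => ?_, h2.2⟩
  have h4 := h2.1 t ht
  rw [dif_pos ht] at h4
  exact h4

/-- Along a family of at most `addN` functions there is a chain of slow slaloms, increasing mod
finite, the slalom with index `i` capturing the function with index `i`. -/
theorem exists_slow_chain {ι W : Type} [Encodable W] [DecidableEq W]
    (hι : Cardinal.mk ι ≤ addN) (hinf : Cardinal.aleph0 ≤ addN) (w : ι → ℕ → W) :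
    ∃ S : ι → ℕ → Finset W, (∀ i, Slow (S i)) ∧ (∀ i, ∀ᶠ m in atTop, w i m ∈ S i m) ∧
      ∀ i j, (∀ᶠ m in atTop, S i m ⊆ S j m) ∨ (∀ᶠ m in atTop, S j m ⊆ S i m) := by
  classical
  obtain ⟨lo, wf, hrt⟩ := Cardinal.exists_ord_eq_type_lt ι
  let X : Type := {S : ℕ → Finset W // Slow S}
  have hslow1 : ∀ v : ℕ → W, Slow (fun m => ({v m} : Finset W)) := by
    intro v k
    filter_upwards [eventually_ge_atTop 1] with m hm
    simpa using hm
  have hslow0 : Slow (fun _ => (∅ : Finset W)) := by
    intro k
    filter_upwards [eventually_ge_atTop 1] with m hm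
    simp only [Finset.card_empty]
    exact (pow_le_one₀ (n := k) (le_refl 0) zero_le_one).trans hm
  have : Inhabited X := ⟨⟨_, hslow0⟩⟩
  obtain ⟨f, hf⟩ := exists_rec' (ι := ι) (X := X)
    (fun S T => ∀ᶠ m in atTop, S.1 m ⊆ T.1 m) (fun i S => ∀ᶠ m in atTop, w i m ∈ S.1 m) (by
      intro s g
      have h1 : Cardinal.mk {t | t < s} < addN := by
        have h0 := Ordinal.typein_lt_type (fun a b : ι => a < b) s
        rw [← hrt, Cardinal.lt_ord] at h0
        exact lt_of_lt_of_le h0 hι
      have h2 : Cardinal.mk (Option {t | t < s}) < addN := by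
        rw [Cardinal.mk_option]
        exact Cardinal.add_lt_of_lt hinf h1 (lt_of_lt_of_le Cardinal.one_lt_aleph0 hinf)
      obtain ⟨T, hT, hT'⟩ := exists_slow_bound h2
        (fun o m => match o with
          | some t => (g t.1).1 m
          | none => {w s m}) (by
          rintro (_ | t)
          · exact hslow1 _
          · exact (g t.1).2)
      refine ⟨⟨T, hT⟩, fun t ht => hT' (some ⟨t, ht⟩), ?_⟩
      filter_upwards [hT' none] with m hm
      exact hm (Finset.mem_singleton_self _))
  refine ⟨fun i => (f i).1, fun i => (f i).2, fun i => (hf i).2, fun i j => ?_⟩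
  rcases lt_trichotomy i j with h | h | h
  · exact Or.inl ((hf j).1 i h)
  · rw [h]
    exact Or.inl (Eventually.of_forall fun m => Finset.Subset.refl _)
  · exact Or.inr ((hf i).1 j h)

/-- `addN` is infinite: finitely many functions are localised by one slalom. -/
lemma aleph0_le_addN : Cardinal.aleph0 ≤ addN := by
  classical
  by_contra hlt
  have hne : {κ | ∃ F : Set (ℕ → ℕ), (¬ ∃ S : ℕ → Finset ℕ, (∀ n, (S n).card ≤ n) ∧
      ∀ f ∈ F, Localises S f) ∧ Cardinal.mk F = κ}.Nonempty := by
    refine ⟨_, Set.univ, ?_, rfl⟩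
    rintro ⟨S, -, hS⟩
    have h1 := hS (fun n => (S n).sup id + 1) (mem_univ _)
    obtain ⟨n, hn⟩ := h1.exists
    have h2 : (S n).sup id + 1 ≤ (S n).sup id := Finset.le_sup (f := id) hn
    omega
  obtain ⟨F, hF, hFc⟩ := csInf_mem hne
  change Cardinal.mk F = addN at hFc
  rw [← hFc, not_le, Cardinal.lt_aleph0_iff_set_finite] at hlt
  refine hF ⟨fun n => if hlt.toFinset.card ≤ n then hlt.toFinset.image fun f => f n else ∅,
    fun n => ?_, fun f hf => ?_⟩
  · dsimp only
    split_ifs with h
    · exact Finset.card_image_le.trans h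
    · simp
  · change ∀ᶠ n in atTop, _
    filter_upwards [eventually_ge_atTop hlt.toFinset.card] with n hn
    rw [if_pos hn]
    exact Finset.mem_image.2 ⟨f, hlt.mem_toFinset.2 hf, rfl⟩

end Pool.Agent.TauStar
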