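import Mathlib
import Pool.Agent.TSN.SN
import Pool.Agent.TSN63.Slalom

/-!
# Q1 fails if some set of size at most `add(N)` is not of strong measure zero
-/

set_option autoImplicit false

namespace Pool.Agent.TSN

open Set Filter Pool.Agent.TauStar

variable {K : ℕ → ℕ}

/-- From a family of pairwise comparable infinite sets of indices, each point evaded by some member
in the sense that the set of the member is almost contained in the trace of the point. -/
theorem not_cantorSatisfies_of_chain {ι : Type} (T : ι → Set (Id2 K))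
    (hinf : ∀ i, (T i).Infinite) (hlin : ∀ i j, (T i \ T j).Finite ∨ (T j \ T i).Finite)
    (hev : ∀ x, ∃ i, (T i \ {p | x ∈ UU K p}).Finite) : ¬ CantorSatisfiesTauStarGamma := by
  classical
  obtain ⟨e, h1, h2, h3, h4, h5, -⟩ := exists_cover2 K
  choose c hc using hev
  have hinf' : ∀ S : Set (Id2 K), S.Infinite → (e ⁻¹' S).Infinite := fun S hS =>
    hS.preimage (by rw [e.surjective.range_eq]; exact subset_univ _)
  have key : ∀ S : Set (Id2 K), S.Finite → (e ⁻¹' S).Finite := fun S h =>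
    h.preimage e.injective.injOn
  have main : ∀ x z : ℕ → Bool, (T (c x) \ T (c z)).Finite →
      (e ⁻¹' (T (c x) ∩ {p | x ∈ UU K p}) \ e ⁻¹' (T (c z) ∩ {p | z ∈ UU K p})).Finite := by
    intro x z h
    refine (key _ (h.union (hc z))).subset ?_
    rintro n ⟨⟨hn1, hn2⟩, hn3⟩
    by_cases h4 : e n ∈ T (c z)
    · right
      exact ⟨h4, fun h5 => hn3 ⟨h4, h5⟩⟩
    · left
      exact ⟨hn1, h4⟩
  intro hQ
  refine h5 (hQ _ ⟨fun n => (h1 n).isOpen, h2, h3, h4,
    fun x => e ⁻¹' (T (c x) ∩ {p | x ∈ UU K p}), fun x n hn => hn.2, fun x => ?_, fun x z => ?_⟩)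
  · refine hinf' _ (((hinf (c x)).sdiff (hc x)).mono ?_)
    rintro p ⟨hp1, hp2⟩
    refine ⟨hp1, ?_⟩
    by_contra h3
    exact hp2 ⟨hp1, h3⟩
  · rcases hlin (c x) (c z) with h | h
    · exact Or.inl (main x z h)
    · exact Or.inr (main z x h)

/-- the words of the `m`-th level whose lists lie in `S m` -/
noncomputable def wordsOf (K : ℕ → ℕ) (S : ℕ → Finset (List Bool)) (m : ℕ) :
    Finset (Fin (K m + 1) → Bool) :=
  open Classical in Finset.univ.filter fun v => List.ofFn v ∈ S m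

lemma card_wordsOf (S : ℕ → Finset (List Bool)) (m : ℕ) : (wordsOf K S m).card ≤ (S m).card := by
  classical
  refine Finset.card_le_card_of_injOn (fun v => List.ofFn v) ?_ ?_
  · intro v hv
    exact (Finset.mem_filter.1 hv).2
  · intro v _ v' _ h
    exact List.ofFn_injective h

/-- the indices whose tuple contains all words of the slalom -/
def chainSet (K : ℕ → ℕ) (S : ℕ → Finset (List Bool)) : Set (Id2 K) :=
  {p | ∀ v ∈ wordsOf K S p.1, ∃ i, p.2 i = v}

lemma finite_of_columns (A : Set (Id2 K)) (N : ℕ) (h : ∀ p ∈ A, p.1 < N) : A.Finite := by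
  refine ((Set.finite_lt_nat N).biUnion fun n _ =>
    (toFinite (univ : Set (Fin (n + 1) → Fin (K n + 1) → Bool))).image (Sigma.mk n)).subset ?_
  rintro ⟨n, s⟩ hp
  exact mem_biUnion (show n ∈ {i | i < N} from h _ hp) ⟨s, mem_univ _, rfl⟩

/-- `non(SN) ≤ add(N)` refutes the positive answer to Q1. -/
theorem not_cantorSatisfies_of_addN (h : nonSN ≤ addN) : ¬ CantorSatisfiesTauStarGamma := by
  classical
  obtain ⟨Y, hY, hYc⟩ := nonSN_mem
  obtain ⟨K, hK⟩ := exists_evading hY
  obtain ⟨S, hS1, hS2, hS3⟩ := exists_slow_chain (ι := Y) (W := List Bool) (hYc.le.trans h)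
    aleph0_le_addN (fun y m => List.ofFn (pre K y.1 m))
  have hsub : ∀ y z : Y, (∀ᶠ m in atTop, S y m ⊆ S z m) →
      (chainSet K (S z) \ chainSet K (S y)).Finite := by
    intro y z hyz
    obtain ⟨N, hN⟩ := eventually_atTop.1 hyz
    refine finite_of_columns _ N ?_
    rintro p ⟨hp1, hp2⟩
    by_contra h1
    refine hp2 fun v hv => hp1 v ?_
    exact Finset.mem_filter.2 ⟨Finset.mem_univ _, hN p.1 (not_lt.1 h1) (Finset.mem_filter.1 hv).2⟩
  refine not_cantorSatisfies_of_chain (K := K) (fun y : Y => chainSet K (S y)) ?_ ?_ ?_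
  · intro y
    refine Set.Infinite.of_image (fun p : Id2 K => p.1) ?_
    refine Set.infinite_of_forall_exists_gt fun N => ?_
    obtain ⟨M, hM⟩ := eventually_atTop.1 (hS1 y 1)
    have h1 := hM (max M (N + 1)) (le_max_left _ _)
    rw [pow_one] at h1
    set m := max M (N + 1) with hm
    have h2 : (wordsOf K (S y) m).card ≤ m := (card_wordsOf _ _).trans h1
    let e := (wordsOf K (S y) m).equivFin
    refine ⟨m, ⟨⟨m, fun i => if h : (i : ℕ) < (wordsOf K (S y) m).card then
      (e.symm ⟨i, h⟩ : Fin (K m + 1) → Bool) else fun _ => false⟩, ?_, rfl⟩,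
      lt_of_lt_of_le (Nat.lt_succ_self N) (le_max_right _ _)⟩
    intro v hv
    have h3 : ((e ⟨v, hv⟩ : Fin (wordsOf K (S y) m).card) : ℕ) < (wordsOf K (S y) m).card :=
      (e ⟨v, hv⟩).2
    refine ⟨⟨_, (lt_of_lt_of_le h3 h2).trans (Nat.lt_succ_self m)⟩, ?_⟩
    simp only [dif_pos h3, Fin.eta, Equiv.symm_apply_apply]
  · intro y z
    rcases hS3 y z with h | h
    · exact Or.inr (hsub y z h)
    · exact Or.inl (hsub z y h)
  · intro x
    obtain ⟨y, hy, hy'⟩ := hK x
    obtain ⟨N, hN⟩ := eventually_atTop.1 (hS2 ⟨y, hy⟩)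
    refine ⟨⟨y, hy⟩, finite_of_columns _ N ?_⟩
    rintro ⟨m, s⟩ ⟨hp1, hp2⟩
    by_contra h1
    have h2 : pre K y m ∈ wordsOf K (S ⟨y, hy⟩) m :=
      Finset.mem_filter.2 ⟨Finset.mem_univ _, hN m (not_lt.1 h1)⟩
    obtain ⟨i, hi⟩ := hp1 _ h2
    refine hp2 fun h3 => hy' m i ?_
    change blk K x m = s at h3
    rw [h3]
    exact hi

end Pool.Agent.TSN
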