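import Mathlib

/-!
# The numbers `𝔟` and `𝔡`, and chains of functions
-/

set_option autoImplicit false

namespace Pool.Agent.TauStar

open Set Filter

/-- `𝔟`: the least cardinality of a family of functions not bounded, modulo finite sets, by one
function. -/
noncomputable def bNum : Cardinal.{0} :=
  sInf {κ | ∃ F : Set (ℕ → ℕ), (¬ ∃ g : ℕ → ℕ, ∀ f ∈ F, ∀ᶠ n in atTop, f n ≤ g n) ∧
    Cardinal.mk F = κ}

/-- `𝔡`: the least cardinality of a dominating family of functions. -/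
noncomputable def dNum : Cardinal.{0} :=
  sInf {κ | ∃ F : Set (ℕ → ℕ), (∀ g : ℕ → ℕ, ∃ f ∈ F, ∀ᶠ n in atTop, g n ≤ f n) ∧
    Cardinal.mk F = κ}

lemma exists_bound_of_lt_bNum {F : Set (ℕ → ℕ)} (hF : Cardinal.mk F < bNum) :
    ∃ g : ℕ → ℕ, ∀ f ∈ F, ∀ᶠ n in atTop, f n ≤ g n := by
  by_contra h
  exact absurd (csInf_le' ⟨F, h, rfl⟩ : bNum ≤ Cardinal.mk F) (not_le.2 hF)

lemma dNum_le {F : Set (ℕ → ℕ)} (hF : ∀ g : ℕ → ℕ, ∃ f ∈ F, ∀ᶠ n in atTop, g n ≤ f n) :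
    dNum ≤ Cardinal.mk F := csInf_le' ⟨F, hF, rfl⟩

lemma bNum_le_dNum : bNum ≤ dNum := by
  have hne : {κ | ∃ F : Set (ℕ → ℕ), (∀ g : ℕ → ℕ, ∃ f ∈ F, ∀ᶠ n in atTop, g n ≤ f n) ∧
      Cardinal.mk F = κ}.Nonempty :=
    ⟨_, univ, fun g => ⟨g, mem_univ _, Eventually.of_forall fun _ => le_rfl⟩, rfl⟩
  obtain ⟨F, hF, hFc⟩ := csInf_mem hne
  change Cardinal.mk F = dNum at hFc
  rw [← hFc]
  refine csInf_le' ⟨F, ?_, rfl⟩
  rintro ⟨g, hg⟩
  obtain ⟨f, hf, hf'⟩ := hF (fun n => g n + 1)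
  obtain ⟨n, h1, h2⟩ := (hf'.and (hg f hf)).exists
  omega

/-- Let `(H i)` be a family of at most `κ` functions such that each subfamily of size less than `κ`
is bounded by one of them, modulo finite sets. If it is dominating, then `κ = 𝔟 = 𝔡`. -/
theorem eq_of_dominating {ι : Type} (κ : Cardinal.{0}) (H : ι → ℕ → ℕ)
    (hcard : Cardinal.mk ι ≤ κ)
    (hchain : ∀ A : Set ι, Cardinal.mk A < κ → ∃ i, ∀ j ∈ A, ∀ᶠ n in atTop, H j n ≤ H i n)
    (hdom : ∀ g : ℕ → ℕ, ∃ i, ∀ᶠ n in atTop, g n ≤ H i n) : κ = bNum ∧ κ = dNum := by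
  have h1 : dNum ≤ κ := by
    refine (dNum_le (F := range H) fun g => ?_).trans (Cardinal.mk_range_le.trans hcard)
    obtain ⟨i, hi⟩ := hdom g
    exact ⟨H i, ⟨i, rfl⟩, hi⟩
  have h2 : κ ≤ bNum := by
    have hne : {κ | ∃ F : Set (ℕ → ℕ), (¬ ∃ g : ℕ → ℕ, ∀ f ∈ F, ∀ᶠ n in atTop, f n ≤ g n) ∧
        Cardinal.mk F = κ}.Nonempty := by
      refine ⟨_, univ, ?_, rfl⟩
      rintro ⟨g, hg⟩
      obtain ⟨n, hn⟩ := (hg (fun n => g n + 1) (mem_univ _)).exists
      omega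
    obtain ⟨F, hF, hFc⟩ := csInf_mem hne
    change Cardinal.mk F = bNum at hFc
    rw [← hFc]
    by_contra hlt
    rw [not_le] at hlt
    choose c hc using hdom
    obtain ⟨i, hi⟩ := hchain (c '' F) (lt_of_le_of_lt Cardinal.mk_image_le hlt)
    refine hF ⟨H i, fun f hf => ?_⟩
    filter_upwards [hc f, hi (c f) ⟨f, hf, rfl⟩] with n h3 h4
    exact h3.trans h4
  have h3 := bNum_le_dNum
  exact ⟨le_antisymm h2 (h3.trans h1), le_antisymm (h2.trans h3) h1⟩

/-- Unless `κ = 𝔟 = 𝔡`, one function exceeds each `H i` infinitely often. -/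
theorem exists_not_dominated {ι : Type} (κ : Cardinal.{0}) (H : ι → ℕ → ℕ)
    (hcard : Cardinal.mk ι ≤ κ)
    (hchain : ∀ A : Set ι, Cardinal.mk A < κ → ∃ i, ∀ j ∈ A, ∀ᶠ n in atTop, H j n ≤ H i n)
    (hκ : ¬ (κ = bNum ∧ κ = dNum)) : ∃ g : ℕ → ℕ, ∀ i, ∃ᶠ n in atTop, H i n < g n := by
  by_contra h
  refine hκ (eq_of_dominating κ H hcard hchain fun g => ?_)
  by_contra h1
  refine h ⟨g, fun i => ?_⟩
  intro h2
  refine h1 ⟨i, ?_⟩
  filter_upwards [h2] with n hn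
  exact not_lt.1 hn

/-- The two-step trick: there is a strictly increasing sequence `(j m)` such that for each monotone
`h i` infinitely many blocks satisfy `h i (j m) ≤ j (m + 1)`. -/
theorem exists_partition {ι : Type} (κ : Cardinal.{0}) (h : ι → ℕ → ℕ)
    (hmono : ∀ i, Monotone (h i)) (hcard : Cardinal.mk ι ≤ κ)
    (hchain : ∀ A : Set ι, Cardinal.mk A < κ → ∃ i, ∀ j ∈ A, ∀ᶠ n in atTop, h j n ≤ h i n)
    (hle : ∀ i n, n ≤ h i n) (hκ : ¬ (κ = bNum ∧ κ = dNum)) :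
    ∃ j : ℕ → ℕ, StrictMono j ∧ ∀ i, ∃ᶠ m in atTop, h i (j m) ≤ j (m + 1) := by
  obtain ⟨g, hg⟩ := exists_not_dominated κ (fun i n => h i (h i n)) hcard (by
    intro A hA
    obtain ⟨i, hi⟩ := hchain A hA
    refine ⟨i, fun k hk => ?_⟩
    have h1 := hi k hk
    obtain ⟨N, hN⟩ := eventually_atTop.1 h1
    filter_upwards [eventually_ge_atTop N] with n hn
    exact (hN (h k n) (hn.trans (hle k n))).trans (hmono i (hN n hn))) hκ
  -- a monotone majorant of `g`, strictly above the identity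
  let G : ℕ → ℕ := fun n => (Finset.range (n + 1)).sup g + n + 1
  have hG1 : ∀ n, g n ≤ G n := fun n => by
    have := Finset.le_sup (f := g) (Finset.self_mem_range_succ n)
    simp only [G]
    omega
  have hG2 : ∀ n, n < G n := fun n => by simp only [G]; omega
  have hG3 : Monotone G := by
    intro a b hab
    have : (Finset.range (a + 1)).sup g ≤ (Finset.range (b + 1)).sup g :=
      Finset.sup_mono (Finset.range_mono (by omega))
    simp only [G]
    omega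
  let j : ℕ → ℕ := fun m => Nat.rec 0 (fun _ a => G a) m
  have hj : ∀ m, j (m + 1) = G (j m) := fun m => rfl
  have hjs : StrictMono j := strictMono_nat_of_lt_succ fun m => by rw [hj]; exact hG2 _
  refine ⟨j, hjs, fun i => ?_⟩
  rw [frequently_atTop]
  intro M
  obtain ⟨n, hn, hn'⟩ := frequently_atTop.1 (hg i) (j (M + 1))
  -- the block of `n`
  obtain ⟨m, hm1, hm2⟩ : ∃ m, j m ≤ n ∧ n < j (m + 1) := by
    have hex : ∃ k, n < j k := ⟨n + 1, lt_of_lt_of_le (Nat.lt_succ_self n) (hjs.id_le (n + 1))⟩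
    obtain ⟨k, hk⟩ : ∃ k, k = Nat.find hex := ⟨_, rfl⟩
    have hk1 : n < j k := hk ▸ Nat.find_spec hex
    cases k with
    | zero => exact absurd hk1 (Nat.not_lt_zero n)
    | succ m =>
      refine ⟨m, ?_, hk1⟩
      by_contra h2
      have := Nat.find_min' hex (not_le.1 h2)
      omega
  have hMm : M + 1 ≤ m := by
    by_contra h2
    have h4 : m + 1 ≤ M + 1 := by omega
    have h3 : j (m + 1) ≤ j (M + 1) := hjs.monotone h4
    omega
  rcases le_or_gt (h i n) (j (m + 1)) with h3 | h3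
  · exact ⟨m, by omega, (hmono i hm1).trans h3⟩
  · refine ⟨m + 1, by omega, ?_⟩
    calc h i (j (m + 1)) ≤ h i (h i n) := hmono i h3.le
      _ ≤ g n := hn'.le
      _ ≤ G n := hG1 n
      _ ≤ G (j (m + 1)) := hG3 hm2.le
      _ = j (m + 1 + 1) := (hj (m + 1)).symm

end Pool.Agent.TauStar
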